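import Pool.Agent.Helper97.Nag.Goals1

/-!
PROJECT NAGATA (MP_d3128a_ag), packet TRR: the count of the rows of the triangle, regular case.
-/

set_option autoImplicit false

noncomputable section

namespace Pool.Agent.Helper80.Nag.TRR

open Pool.Agent.Helper97.Nag

/-- if a row contains the points `j0, ..., j0 + s - 1` it belongs to `lnv S s` -/
theorem mem_lnv (S : Finset (ℤ × ℤ)) (s : ℕ) (hs : 1 ≤ s) (X : ℤ) (j0 : ℕ)
    (h : ∀ i : ℕ, i < s → (((j0 + i : ℕ) : ℤ), X) ∈ S) : X ∈ lnv S s := by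
  classical
  unfold lnv
  rw [Finset.mem_filter]
  have hsub : (Finset.range s).image (fun i : ℕ => (((j0 + i : ℕ) : ℤ), X)) ⊆
      S.filter fun q => q.2 = X := by
    intro q hq
    rw [Finset.mem_image] at hq
    obtain ⟨i, hi, rfl⟩ := hq
    rw [Finset.mem_filter]
    exact ⟨h i (Finset.mem_range.mp hi), rfl⟩
  have hcard : ((Finset.range s).image (fun i : ℕ => (((j0 + i : ℕ) : ℤ), X))).card = s := by
    rw [Finset.card_image_of_injective]
    · exact Finset.card_range s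
    · intro i i' hii
      have := congrArg Prod.fst hii
      simp only at this
      omega
  refine ⟨?_, ?_⟩
  · rw [Finset.mem_image]
    exact ⟨(((j0 + 0 : ℕ) : ℤ), X), h 0 (by omega), rfl⟩
  · calc s = ((Finset.range s).image (fun i : ℕ => (((j0 + i : ℕ) : ℤ), X))).card := hcard.symm
      _ ≤ (S.filter fun q => q.2 = X).card := Finset.card_le_card hsub

/-- the points of a row -/
theorem row (d : ℕ) (rho : ℝ) (h0 : 0 ≤ rho) (hd : 1 ≤ d)
    (hti : ∀ j : ℕ, 3 * j < d → ∀ n : ℤ, rho * ((d : ℝ) / 3 - j) ≠ n) (s : ℕ) (hs : 1 ≤ s) (X : ℤ)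
    (hX1 : (s : ℝ) * (rho * (rho + 9)) ≤ 9 * X) (hX2 : (X : ℝ) < (rho + 9) * ((d : ℝ) / 3 - s + 1)) :
    ∃ j0 : ℕ, ∀ i : ℕ, i < s → 3 * (j0 + i) < d ∧
      rho * ((d : ℝ) / 3 - ((j0 + i : ℕ) : ℝ)) < X ∧ (X : ℝ) < (rho + 9) * ((d : ℝ) / 3 - ((j0 + i : ℕ) : ℝ)) := by
  have hc : 0 < rho + 9 := by linarith
  have hX0 : (0 : ℝ) ≤ X := by
    have : 0 ≤ (s : ℝ) * (rho * (rho + 9)) := by positivity
    linarith
  -- from the upper inequality one gets the first one
  have key : ∀ j : ℕ, (X : ℝ) < (rho + 9) * ((d : ℝ) / 3 - (j : ℝ)) → 3 * j < d := by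
    intro j hj
    have h1 : 0 < (rho + 9) * ((d : ℝ) / 3 - (j : ℝ)) := lt_of_le_of_lt hX0 hj
    have h2 : 0 < (d : ℝ) / 3 - (j : ℝ) := by
      by_contra hcon
      push Not at hcon
      have := mul_nonpos_of_nonneg_of_nonpos hc.le hcon
      linarith
    have h3 : (3 : ℝ) * j < d := by linarith
    exact_mod_cast h3
  by_cases hA : rho * ((d : ℝ) / 3) < X
  · refine ⟨0, ?_⟩
    intro i hi
    have hi' : (i : ℝ) ≤ (s : ℝ) - 1 := by
      have : i + 1 ≤ s := hi
      have : ((i + 1 : ℕ) : ℝ) ≤ (s : ℝ) := by exact_mod_cast this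
      push_cast at this
      linarith
    have hu : (X : ℝ) < (rho + 9) * ((d : ℝ) / 3 - ((0 + i : ℕ) : ℝ)) := by
      refine lt_of_lt_of_le hX2 ?_
      apply mul_le_mul_of_nonneg_left _ hc.le
      push_cast
      linarith
    refine ⟨key _ hu, ?_, hu⟩
    refine lt_of_le_of_lt ?_ hA
    apply mul_le_mul_of_nonneg_left _ h0
    have : (0 : ℝ) ≤ ((0 + i : ℕ) : ℝ) := by positivity
    linarith
  · push Not at hA
    have hrho : 0 < rho := by
      rcases h0.lt_or_eq with h | h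
      · exact h
      · exfalso
        have := hti 0 (by omega) 0
        apply this
        rw [← h]
        simp
    have hXpos : (0 : ℝ) < X := by
      have : 0 < (s : ℝ) * (rho * (rho + 9)) := by
        have : (0 : ℝ) < s := by exact_mod_cast hs
        positivity
      linarith
    have hex : ∃ j : ℕ, rho * ((d : ℝ) / 3 - (j : ℝ)) < X := by
      refine ⟨d, ?_⟩
      have h1 : (d : ℝ) / 3 - (d : ℝ) ≤ 0 := by
        have : (0 : ℝ) ≤ d := by positivity
        linarith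
      have := mul_nonpos_of_nonneg_of_nonpos h0 h1
      linarith
    classical
    obtain ⟨j0, hj0, hmin⟩ : ∃ j0 : ℕ, rho * ((d : ℝ) / 3 - (j0 : ℝ)) < X ∧
        ∀ j : ℕ, j < j0 → ¬ rho * ((d : ℝ) / 3 - (j : ℝ)) < X :=
      ⟨Nat.find hex, Nat.find_spec hex, fun j hj => Nat.find_min hex hj⟩
    have hj0pos : 1 ≤ j0 := by
      rcases Nat.eq_zero_or_pos j0 with h | h
      · exfalso
        rw [h] at hj0
        simp only [Nat.cast_zero, sub_zero] at hj0
        linarith
      · exact h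
    have hprev := hmin (j0 - 1) (by omega)
    push Not at hprev
    have hcast : ((j0 - 1 : ℕ) : ℝ) = (j0 : ℝ) - 1 := by
      rw [Nat.cast_sub hj0pos]
      simp
    have h3 : 3 * (j0 - 1) < d := by
      have h1 : 0 < rho * ((d : ℝ) / 3 - ((j0 - 1 : ℕ) : ℝ)) := lt_of_lt_of_le hXpos hprev
      have h2 : 0 < (d : ℝ) / 3 - ((j0 - 1 : ℕ) : ℝ) := by
        by_contra hcon
        push Not at hcon
        have := mul_nonpos_of_nonneg_of_nonpos h0 hcon
        linarith
      have h3 : (3 : ℝ) * ((j0 - 1 : ℕ) : ℝ) < d := by linarith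
      exact_mod_cast h3
    have hstrict : (X : ℝ) < rho * ((d : ℝ) / 3 - ((j0 - 1 : ℕ) : ℝ)) :=
      lt_of_le_of_ne hprev (fun h => hti (j0 - 1) h3 X h.symm)
    rw [hcast] at hstrict
    refine ⟨j0, ?_⟩
    intro i hi
    have hi' : (i : ℝ) ≤ (s : ℝ) - 1 := by
      have : i + 1 ≤ s := hi
      have : ((i + 1 : ℕ) : ℝ) ≤ (s : ℝ) := by exact_mod_cast this
      push_cast at this
      linarith
    have hu : (X : ℝ) < (rho + 9) * ((d : ℝ) / 3 - ((j0 + i : ℕ) : ℝ)) := by
      have h4 : (X : ℝ) < (rho + 9) * ((d : ℝ) / 3 - j0 - s + 1) := by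
        -- multiply by rho
        have h5 : rho * X < rho * ((rho + 9) * ((d : ℝ) / 3 - j0 - s + 1)) := by
          have h6 : (rho + 9) * X < (rho + 9) * (rho * ((d : ℝ) / 3 - (j0 - 1))) :=
            mul_lt_mul_of_pos_left hstrict hc
          nlinarith
        exact lt_of_mul_lt_mul_left h5 h0
      refine lt_of_lt_of_le h4 ?_
      apply mul_le_mul_of_nonneg_left _ hc.le
      push_cast
      linarith
    refine ⟨key _ hu, ?_, hu⟩
    refine lt_of_le_of_lt ?_ hj0
    apply mul_le_mul_of_nonneg_left _ h0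
    push_cast
    have : (0 : ℝ) ≤ (i : ℝ) := by positivity
    linarith

/-- the sum of the lengths -/
theorem sumle (b : ℕ) (M : Fin b → ℕ) (c U : ℝ) (hc : 0 < c) (hU : 0 < U)
    (h1 : ∀ l, c * ((M l : ℝ) + 1) ≤ 9 * U) (h2 : (∑ l, ((M l : ℝ) + 1)) ≤ c * U) (s : ℕ) :
    (∑ l, (M l + 1 - s) = 0) ∨ ((∑ l, (M l + 1 - s) : ℕ) : ℝ) ≤ c * U - s * c ^ 2 / 9 := by
  by_cases hs : (s : ℝ) * c ≤ 9 * U
  · right
    have hr : 0 ≤ 1 - s * c / (9 * U) := by
      rw [sub_nonneg, div_le_one (by positivity)]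
      exact hs
    have hterm : ∀ l, ((M l + 1 - s : ℕ) : ℝ) ≤ ((M l : ℝ) + 1) * (1 - s * c / (9 * U)) := by
      intro l
      by_cases hl : s ≤ M l + 1
      · rw [Nat.cast_sub hl]
        push_cast
        have h3 : ((M l : ℝ) + 1) * (s * c / (9 * U)) ≤ s := by
          rw [mul_div_assoc', div_le_iff₀ (by positivity)]
          have := mul_le_mul_of_nonneg_left (h1 l) (Nat.cast_nonneg (α := ℝ) s)
          nlinarith
        nlinarith
      · have : M l + 1 - s = 0 := by omega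
        rw [this]
        simp only [Nat.cast_zero]
        positivity
    rw [Nat.cast_sum]
    calc ∑ l, ((M l + 1 - s : ℕ) : ℝ) ≤ ∑ l, ((M l : ℝ) + 1) * (1 - s * c / (9 * U)) :=
          Finset.sum_le_sum fun l _ => hterm l
      _ = (∑ l, ((M l : ℝ) + 1)) * (1 - s * c / (9 * U)) := by rw [Finset.sum_mul]
      _ ≤ (c * U) * (1 - s * c / (9 * U)) := mul_le_mul_of_nonneg_right h2 hr
      _ = c * U - s * c ^ 2 / 9 := by
        field_simp
  · left
    push Not at hs
    apply Finset.sum_eq_zero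
    intro l _
    have h3 : c * ((M l : ℝ) + 1) < c * s := by
      calc c * ((M l : ℝ) + 1) ≤ 9 * U := h1 l
        _ < s * c := hs
        _ = c * s := mul_comm _ _
    have h4 : ((M l : ℝ) + 1) < s := lt_of_mul_lt_mul_left h3 hc.le
    have h5 : M l + 1 < s := by exact_mod_cast h4
    omega

theorem t : S_TRR := by
  classical
  intro b d M rho hd h0 hM1 hM2 hti
  have hc : 0 < rho + 9 := by linarith
  have hdr : (1 : ℝ) ≤ d := by exact_mod_cast hd
  set S : Finset (ℤ × ℤ) :=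
    ((Finset.range (d + 1) ×ˢ Finset.Icc (0 : ℤ) ⌈(rho + 9) * ((d : ℝ) / 3)⌉).filter
      (fun c : ℕ × ℤ => 3 * c.1 < d ∧ InT d rho c.1 c.2)).image (fun c => ((c.1 : ℤ), c.2)) with hS
  refine ⟨S, ?_, ?_⟩
  · intro q hq
    rw [hS, Finset.mem_image] at hq
    obtain ⟨c, hc1, rfl⟩ := hq
    rw [Finset.mem_filter] at hc1
    exact ⟨c.1, rfl, hc1.2.1, hc1.2.2⟩
  · intro s hs
    have hmem : ∀ (j : ℕ) (X : ℤ), 3 * j < d → rho * ((d : ℝ) / 3 - (j : ℝ)) < X →
        (X : ℝ) < (rho + 9) * ((d : ℝ) / 3 - (j : ℝ)) → ((j : ℤ), X) ∈ S := by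
      intro j X hj h1 h2
      rw [hS, Finset.mem_image]
      refine ⟨(j, X), ?_, rfl⟩
      rw [Finset.mem_filter, Finset.mem_product, Finset.mem_range, Finset.mem_Icc]
      have hjr : (3 : ℝ) * j < d := by exact_mod_cast hj
      refine ⟨⟨by simp only; omega, ?_, ?_⟩, hj, Or.inl ⟨hj, h1, h2⟩⟩
      · have : (0 : ℝ) ≤ rho * ((d : ℝ) / 3 - (j : ℝ)) := mul_nonneg h0 (by linarith)
        have h3 : (0 : ℝ) < X := lt_of_le_of_lt this h1
        have h4 : (0 : ℤ) < X := by exact_mod_cast h3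
        exact h4.le
      · have h3 : (X : ℝ) ≤ (rho + 9) * ((d : ℝ) / 3) := by
          refine h2.le.trans ?_
          apply mul_le_mul_of_nonneg_left _ hc.le
          have : (0 : ℝ) ≤ (j : ℝ) := by positivity
          linarith
        have h4 : (X : ℝ) ≤ (⌈(rho + 9) * ((d : ℝ) / 3)⌉ : ℝ) := h3.trans (Int.le_ceil _)
        exact_mod_cast h4
    rcases sumle b M (rho + 9) (((d : ℝ) + 3) / 3) hc (by positivity)
      (fun l => by have := hM1 l; linarith) (by linarith) s with h | h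
    · rw [h]
      exact Nat.zero_le _
    · set N := ∑ l, (M l + 1 - s) with hN
      set A : ℝ := (s : ℝ) * (rho * (rho + 9)) / 9 with hA
      set B : ℝ := (rho + 9) * ((d : ℝ) / 3 - s + 1) with hB
      have hlen : (N : ℝ) ≤ B - A := by
        refine h.trans (le_of_eq ?_)
        rw [hA, hB]
        ring
      have hsub : Finset.Ico ⌈A⌉ ⌈B⌉ ⊆ lnv S s := by
        intro X hX
        rw [Finset.mem_Ico] at hX
        have hX1 : A ≤ X := by
          exact Int.ceil_le.mp hX.1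
        have hX2 : (X : ℝ) < B := Int.lt_ceil.mp hX.2
        obtain ⟨j0, hj0⟩ := row d rho h0 hd hti s hs X (by rw [hA] at hX1; linarith) hX2
        apply mem_lnv S s hs X j0
        intro i hi
        obtain ⟨h1, h2, h3⟩ := hj0 i hi
        exact hmem (j0 + i) X h1 h2 h3
      have hcard : (N : ℤ) ≤ ⌈B⌉ - ⌈A⌉ := by
        have h1 : A + (N : ℝ) ≤ B := by linarith
        have h2 : ⌈A + ((N : ℤ) : ℝ)⌉ ≤ ⌈B⌉ := Int.ceil_le_ceil (by push_cast; exact h1)
        rw [Int.ceil_add_intCast] at h2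
        omega
      have h5 : N ≤ (Finset.Ico ⌈A⌉ ⌈B⌉).card := by
        rw [Int.card_Ico]
        omega
      exact h5.trans (Finset.card_le_card hsub)

end Pool.Agent.Helper80.Nag.TRR
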